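import Mathlib

/-!
# Riesz product flows on a finite torus

`G k N = ((Fin k → Bool) → ZMod N)`.  For `j : Fin k` let `w j z = ∑ σ, ± z σ` (sign `+` iff
`σ j = true`) and `C j z = cos (2 π w j z / N)`.  We prove that for every function `f` on `G k N`
whose increments along the `2 ^ k` coordinate directions are at most `L * 2 π / N` one has
`∑ j, |2 E[f C j]| ≤ 4 L`, as soon as `N = 100 * 4 ^ k`.
-/

open scoped BigOperators Real
open Finset

namespace Pool.Agent.LipL1

/-- The finite torus. -/
abbrev G (k N : ℕ) : Type := (Fin k → Bool) → ZMod N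

/-- Sign of a Boolean. -/
def sg (b : Bool) : ℝ := if b then 1 else -1

/-- The phase. -/
def w {k N : ℕ} (j : Fin k) (z : G k N) : ZMod N := ∑ σ, if σ j then z σ else - z σ

/-- A coordinate step. -/
def stp {k : ℕ} (N : ℕ) (σ : Fin k → Bool) : G k N := Pi.single σ 1

section

variable {k N : ℕ}

theorem w_add (j : Fin k) (y z : G k N) : w j (y + z) = w j y + w j z := by
  unfold w
  rw [← Finset.sum_add_distrib]
  apply Finset.sum_congr rfl
  intro σ _
  by_cases h : σ j <;> simp [h]
  ring

theorem w_stp (j : Fin k) (σ : Fin k → Bool) :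
    w j (stp N σ) = if σ j then 1 else -1 := by
  unfold w stp
  rw [Finset.sum_eq_single σ]
  · simp
  · intro τ _ hτ
    rw [Pi.single_eq_of_ne hτ]
    simp
  · simp

theorem w_sub (j : Fin k) (y z : G k N) : w j (y - z) = w j y - w j z := by
  have h := w_add j (y - z) z
  rw [sub_add_cancel] at h
  rw [h]; ring

end

variable {k N : ℕ} [NeZero N]

/-- The standard character. -/
noncomputable def ec (x : ZMod N) : ℂ := ZMod.stdAddChar x

theorem ec_add (x y : ZMod N) : ec (x + y) = ec x * ec y := AddChar.map_add_eq_mul _ _ _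

theorem norm_ec (x : ZMod N) : ‖ec x‖ = 1 := by
  unfold ec
  rw [ZMod.stdAddChar_apply]
  exact Circle.norm_coe _

theorem ec_neg (x : ZMod N) : ec (-x) = (starRingEnd ℂ) (ec x) := by
  have h1 : ec (-x) * ec x = 1 := by
    rw [← ec_add, neg_add_cancel]
    exact AddChar.map_zero_eq_one _
  have h2 : (starRingEnd ℂ) (ec x) * ec x = 1 := by
    rw [mul_comm, Complex.mul_conj, Complex.normSq_eq_norm_sq, norm_ec]
    norm_num
  have h3 : ec x ≠ 0 := by
    intro h
    have := norm_ec x
    rw [h] at this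
    simp at this
  exact mul_right_cancel₀ h3 (h1.trans h2.symm)

theorem ec_injective : Function.Injective (ec : ZMod N → ℂ) := ZMod.injective_stdAddChar

/-- The step angle. -/
noncomputable def ang (N : ℕ) : ℝ := 2 * π / N

theorem ec_one_eq : ec (1 : ZMod N) = Complex.exp (ang N * Complex.I) := by
  unfold ec ang
  have h := ZMod.stdAddChar_coe (N := N) 1
  rw [Int.cast_one] at h
  rw [h]
  congr 1
  push_cast
  ring

theorem ec_one_re : (ec (1 : ZMod N)).re = Real.cos (ang N) := by
  rw [ec_one_eq, Complex.exp_ofReal_mul_I_re]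

theorem ec_one_im : (ec (1 : ZMod N)).im = Real.sin (ang N) := by
  rw [ec_one_eq, Complex.exp_ofReal_mul_I_im]

/-- The cosine of the phase. -/
noncomputable def Cs (j : Fin k) (z : G k N) : ℝ := (ec (w j z)).re

/-- The sine of the phase. -/
noncomputable def Sn (j : Fin k) (z : G k N) : ℝ := (ec (w j z)).im

theorem abs_Cs_le (j : Fin k) (z : G k N) : |Cs j z| ≤ 1 :=
  (Complex.abs_re_le_norm _).trans (norm_ec _).le

theorem abs_Sn_le (j : Fin k) (z : G k N) : |Sn j z| ≤ 1 :=
  (Complex.abs_im_le_norm _).trans (norm_ec _).le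

theorem Sn_sub_stp (j : Fin k) (z : G k N) (σ : Fin k → Bool) :
    sg (σ j) * Sn j (z - stp N σ) =
      sg (σ j) * Sn j z * Real.cos (ang N) - Cs j z * Real.sin (ang N) := by
  unfold Sn Cs
  rw [w_sub, w_stp]
  by_cases h : σ j
  · simp only [h, if_true, sg, one_mul]
    rw [sub_eq_add_neg, ec_add, ec_neg, Complex.mul_im, Complex.conj_re, Complex.conj_im,
      ec_one_re, ec_one_im]
    ring
  · simp only [h, sg, Bool.false_eq_true, if_false]
    rw [sub_neg_eq_add, ec_add, Complex.mul_im, ec_one_re, ec_one_im]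
    ring

/-- The Riesz product. -/
noncomputable def R (ε : Fin k → ℝ) (σ : Fin k → Bool) (z : G k N) : ℝ :=
  ∏ j, (1 + ε j * (sg (σ j) * Sn j z))

theorem R_nonneg {ε : Fin k → ℝ} (hε : ∀ j, |ε j| ≤ 1) (σ : Fin k → Bool) (z : G k N) :
    0 ≤ R ε σ z := by
  apply Finset.prod_nonneg
  intro j _
  have h1 : |ε j * (sg (σ j) * Sn j z)| ≤ 1 := by
    rw [abs_mul, abs_mul]
    have h2 : |sg (σ j)| = 1 := by
      unfold sg; split_ifs <;> simp
    rw [h2, one_mul]
    calc |ε j| * |Sn j z| ≤ 1 * 1 :=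
          mul_le_mul (hε j) (abs_Sn_le j z) (abs_nonneg _) zero_le_one
      _ = 1 := by norm_num
  have := (abs_le.1 h1).1
  linarith

theorem sum_prod_bool (g : Fin k → Bool → ℝ) :
    ∑ σ : Fin k → Bool, ∏ j, g j (σ j) = ∏ j, (g j true + g j false) := by
  have h := Finset.prod_univ_sum (fun _ : Fin k => (Finset.univ : Finset Bool)) g
  rw [Fintype.piFinset_univ] at h
  rw [← h]
  apply Finset.prod_congr rfl
  intro j _
  simp

theorem sum_R (ε : Fin k → ℝ) (z : G k N) : ∑ σ, R ε σ z = 2 ^ k := by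
  unfold R
  rw [sum_prod_bool (fun j b => 1 + ε j * (sg b * Sn j z))]
  rw [Finset.prod_congr rfl (g := fun _ => (2 : ℝ))]
  · simp
  · intro j _
    simp [sg]
    ring

theorem sum_R_sub (ε : Fin k → ℝ) (z : G k N) :
    ∑ σ, R ε σ (z - stp N σ) = 2 ^ k * ∏ j, (1 - ε j * Real.sin (ang N) * Cs j z) := by
  have h1 : ∀ σ, R ε σ (z - stp N σ) = ∏ j, (1 + ε j *
      (sg (σ j) * Sn j z * Real.cos (ang N) - Cs j z * Real.sin (ang N))) := by
    intro σ
    unfold R
    apply Finset.prod_congr rfl
    intro j _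
    rw [Sn_sub_stp]
  rw [Finset.sum_congr rfl fun σ _ => h1 σ]
  rw [sum_prod_bool (fun j b => 1 + ε j *
      (sg b * Sn j z * Real.cos (ang N) - Cs j z * Real.sin (ang N)))]
  have h2 : (2 : ℝ) ^ k = ∏ _j : Fin k, (2 : ℝ) := by simp
  rw [h2, ← Finset.prod_mul_distrib]
  apply Finset.prod_congr rfl
  intro j _
  simp [sg]
  ring

/-- The flow identity. -/
theorem flow_identity (ε : Fin k → ℝ) (f : G k N → ℝ) :
    ∑ z, ∑ σ, R ε σ z * (f (z + stp N σ) - f z) =
      2 ^ k * ∑ z, f z * (∏ j, (1 - ε j * Real.sin (ang N) * Cs j z) - 1) := by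
  have h1 : ∀ σ : Fin k → Bool, ∑ z, R ε σ z * f (z + stp N σ) =
      ∑ z, R ε σ (z - stp N σ) * f z := by
    intro σ
    refine Fintype.sum_equiv (Equiv.addRight (stp N σ)) _ _ ?_
    intro z
    simp
  calc ∑ z, ∑ σ, R ε σ z * (f (z + stp N σ) - f z)
      = ∑ z, ∑ σ, R ε σ z * f (z + stp N σ) - ∑ z, ∑ σ, R ε σ z * f z := by
        rw [← Finset.sum_sub_distrib]
        apply Finset.sum_congr rfl
        intro z _
        rw [← Finset.sum_sub_distrib]
        apply Finset.sum_congr rfl
        intro σ _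
        ring
    _ = ∑ z, ∑ σ, R ε σ (z - stp N σ) * f z - ∑ z, ∑ σ, R ε σ z * f z := by
        congr 1
        rw [Finset.sum_comm, Finset.sum_congr rfl fun σ _ => h1 σ, Finset.sum_comm]
    _ = ∑ z, ((2 ^ k * ∏ j, (1 - ε j * Real.sin (ang N) * Cs j z)) * f z - 2 ^ k * f z) := by
        rw [← Finset.sum_sub_distrib]
        apply Finset.sum_congr rfl
        intro z _
        rw [← Finset.sum_mul, ← Finset.sum_mul, sum_R, sum_R_sub]
    _ = _ := by
        rw [Finset.mul_sum]
        apply Finset.sum_congr rfl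
        intro z _
        ring

theorem flow_bound {ε : Fin k → ℝ} (hε : ∀ j, |ε j| ≤ 1) (f : G k N → ℝ) {D : ℝ}
    (hf : ∀ z σ, |f (z + stp N σ) - f z| ≤ D) :
    |∑ z, f z * (∏ j, (1 - ε j * Real.sin (ang N) * Cs j z) - 1)| ≤
      D * Fintype.card (G k N) := by
  have h1 := flow_identity ε f
  have h2 : |∑ z, ∑ σ, R ε σ z * (f (z + stp N σ) - f z)| ≤
      2 ^ k * (D * Fintype.card (G k N)) := by
    calc |∑ z, ∑ σ, R ε σ z * (f (z + stp N σ) - f z)|
        ≤ ∑ z, |∑ σ, R ε σ z * (f (z + stp N σ) - f z)| := Finset.abs_sum_le_sum_abs _ _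
      _ ≤ ∑ z : G k N, (2 ^ k * D) := by
          apply Finset.sum_le_sum
          intro z _
          calc |∑ σ, R ε σ z * (f (z + stp N σ) - f z)|
              ≤ ∑ σ, |R ε σ z * (f (z + stp N σ) - f z)| := Finset.abs_sum_le_sum_abs _ _
            _ ≤ ∑ σ, R ε σ z * D := by
                apply Finset.sum_le_sum
                intro σ _
                rw [abs_mul, abs_of_nonneg (R_nonneg hε σ z)]
                exact mul_le_mul_of_nonneg_left (hf z σ) (R_nonneg hε σ z)
            _ = 2 ^ k * D := by rw [← Finset.sum_mul, sum_R]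
      _ = 2 ^ k * (D * Fintype.card (G k N)) := by
          rw [Finset.sum_const, Finset.card_univ, nsmul_eq_mul]
          ring
  rw [h1, abs_mul, abs_of_pos (by positivity : (0 : ℝ) < 2 ^ k)] at h2
  exact le_of_mul_le_mul_left h2 (by positivity)

theorem taylor_prod {ι : Type*} (S : Finset ι) (t : ι → ℝ) {s : ℝ} (hs0 : 0 ≤ s) (hs : s ≤ 1)
    (ht : ∀ i, |t i| ≤ s) :
    |∏ i ∈ S, (1 - t i)| ≤ 2 ^ S.card ∧ |∏ i ∈ S, (1 - t i) - 1| ≤ 2 ^ S.card * s ∧
      |∏ i ∈ S, (1 - t i) - 1 + ∑ i ∈ S, t i| ≤ 2 ^ S.card * s ^ 2 := by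
  classical
  induction S using Finset.induction_on with
  | empty =>
    refine ⟨by simp, ?_, ?_⟩
    · simp only [Finset.prod_empty, sub_self, abs_zero, Finset.card_empty, pow_zero, one_mul]
      exact hs0
    · simp only [Finset.prod_empty, sub_self, Finset.sum_empty, add_zero, abs_zero,
        Finset.card_empty, pow_zero, one_mul]
      exact sq_nonneg s
  | insert a S ha ih =>
    obtain ⟨h1, h2, h3⟩ := ih
    rw [Finset.prod_insert ha, Finset.sum_insert ha, Finset.card_insert_of_notMem ha, pow_succ]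
    set P := ∏ i ∈ S, (1 - t i)
    have hta := ht a
    have hp : (0 : ℝ) ≤ 2 ^ S.card := by positivity
    refine ⟨?_, ?_, ?_⟩
    · rw [abs_mul]
      have : |1 - t a| ≤ 2 := by
        have := abs_sub (1 : ℝ) (t a)
        rw [abs_one] at this
        linarith
      calc |1 - t a| * |P| ≤ 2 * 2 ^ S.card :=
            mul_le_mul this h1 (abs_nonneg _) (by norm_num)
        _ = _ := by ring
    · have : (1 - t a) * P - 1 = (P - 1) - t a * P := by ring
      rw [this]
      calc |(P - 1) - t a * P| ≤ |P - 1| + |t a * P| := abs_sub _ _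
        _ ≤ 2 ^ S.card * s + s * 2 ^ S.card := by
            rw [abs_mul]
            exact add_le_add h2 (mul_le_mul hta h1 (abs_nonneg _) hs0)
        _ = _ := by ring
    · have : (1 - t a) * P - 1 + (t a + ∑ i ∈ S, t i) =
          (P - 1 + ∑ i ∈ S, t i) - t a * (P - 1) := by ring
      rw [this]
      calc |(P - 1 + ∑ i ∈ S, t i) - t a * (P - 1)|
          ≤ |P - 1 + ∑ i ∈ S, t i| + |t a * (P - 1)| := abs_sub _ _
        _ ≤ 2 ^ S.card * s ^ 2 + s * (2 ^ S.card * s) := by
            rw [abs_mul]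
            exact add_le_add h3 (mul_le_mul hta h2 (abs_nonneg _) hs0)
        _ = _ := by ring

theorem path_bound (f : G k N → ℝ) {D : ℝ} (hf : ∀ z σ, |f (z + stp N σ) - f z| ≤ D)
    (z : G k N) : |f z - f 0| ≤ 2 ^ k * (N * D) := by
  classical
  have hD : 0 ≤ D := (abs_nonneg _).trans (hf 0 (fun _ => true))
  have h1 : ∀ (n : ℕ) (y : G k N) σ, |f (y + n • stp N σ) - f y| ≤ n * D := by
    intro n y σ
    induction n with
    | zero => simp
    | succ n ih =>
      have h := hf (y + n • stp N σ) σ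
      have e1 : y + (n + 1) • stp N σ = y + n • stp N σ + stp N σ := by
        rw [succ_nsmul, add_assoc]
      rw [e1]
      push_cast
      calc |f (y + n • stp N σ + stp N σ) - f y|
          = |(f (y + n • stp N σ + stp N σ) - f (y + n • stp N σ)) +
              (f (y + n • stp N σ) - f y)| := by ring_nf
        _ ≤ _ + _ := abs_add_le _ _
        _ ≤ D + n * D := add_le_add h ih
        _ = _ := by ring
  have h2 : ∀ T : Finset (Fin k → Bool),
      |f (∑ σ ∈ T, (z σ).val • stp N σ) - f 0| ≤ T.card * (N * D) := by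
    intro T
    induction T using Finset.induction_on with
    | empty => simp
    | insert a T ha ih =>
      rw [Finset.sum_insert ha, Finset.card_insert_of_notMem ha, add_comm]
      have h := h1 (z a).val (∑ σ ∈ T, (z σ).val • stp N σ) a
      have h' : ((z a).val : ℝ) * D ≤ N * D := by
        apply mul_le_mul_of_nonneg_right _ hD
        exact_mod_cast (ZMod.val_lt (z a)).le
      push_cast
      calc |f (∑ σ ∈ T, (z σ).val • stp N σ + (z a).val • stp N a) - f 0|
          = |(f (∑ σ ∈ T, (z σ).val • stp N σ + (z a).val • stp N a) -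
              f (∑ σ ∈ T, (z σ).val • stp N σ)) +
              (f (∑ σ ∈ T, (z σ).val • stp N σ) - f 0)| := by ring_nf
        _ ≤ _ + _ := abs_add_le _ _
        _ ≤ N * D + T.card * (N * D) := add_le_add (h.trans h') ih
        _ = _ := by ring
  have h3 : ∑ σ, (z σ).val • stp N σ = z := by
    ext τ
    rw [Finset.sum_apply, Finset.sum_eq_single τ]
    · simp [stp]
    · intro σ _ hσ
      simp [stp, Pi.single_eq_of_ne (Ne.symm hσ)]
    · simp
  have h4 := h2 Finset.univ
  rw [h3] at h4
  simpa [Finset.card_univ] using h4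

/-- Vanishing of a nontrivial character sum. -/
theorem sum_ec_eq_zero (φ : G k N → ZMod N) (σ : Fin k → Bool) (t : ZMod N)
    (hφ : ∀ z, φ (z + stp N σ) = φ z + t) (ht : ec t ≠ 1) : ∑ z, ec (φ z) = 0 := by
  have h1 : ∑ z, ec (φ z) = ∑ z, ec (φ (z + stp N σ)) :=
    (Fintype.sum_equiv (Equiv.addRight (stp N σ)) _ _ (fun z => by simp)).symm
  have h2 : ∑ z, ec (φ (z + stp N σ)) = (∑ z, ec (φ z)) * ec t := by
    rw [Finset.sum_mul]
    apply Finset.sum_congr rfl
    intro z _
    rw [hφ, ec_add]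
  rw [h2] at h1
  have h3 : (∑ z, ec (φ z)) * (1 - ec t) = 0 := by
    rw [mul_sub, mul_one, ← h1, sub_self]
  rcases mul_eq_zero.1 h3 with h | h
  · exact h
  · exact absurd (sub_eq_zero.1 h).symm ht

theorem ec_ne_one {x : ZMod N} (hx : x ≠ 0) : ec x ≠ 1 := by
  intro h
  have h0 : ec (0 : ZMod N) = 1 := AddChar.map_zero_eq_one _
  exact hx (ec_injective (h.trans h0.symm))

theorem sum_Cs (hN : 1 < N) (j : Fin k) : ∑ z : G k N, Cs j z = 0 := by
  have h := sum_ec_eq_zero (w j) (fun _ => true) (1 : ZMod N)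
    (fun z => by rw [w_add, w_stp]; simp) (by
      apply ec_ne_one
      haveI : Fact (1 < N) := ⟨hN⟩
      exact one_ne_zero)
  have h2 := congrArg Complex.re h
  rw [Complex.re_sum] at h2
  simpa [Cs] using h2

theorem two_ne_zero_zmod (hN : 2 < N) : (2 : ZMod N) ≠ 0 := by
  intro h
  have h2 : ((2 : ℕ) : ZMod N) = 0 := by exact_mod_cast h
  rw [ZMod.natCast_eq_zero_iff] at h2
  exact absurd (Nat.le_of_dvd (by norm_num) h2) (not_le.2 hN)

theorem sum_Cs_mul (hN : 2 < N) (i j : Fin k) :
    ∑ z : G k N, 2 * (Cs i z * Cs j z) = if i = j then (Fintype.card (G k N) : ℝ) else 0 := by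
  have key : ∀ z : G k N, 2 * (Cs i z * Cs j z) =
      (ec (w i z + w j z)).re + (ec (w i z - w j z)).re := by
    intro z
    unfold Cs
    rw [sub_eq_add_neg, ec_add, ec_add, ec_neg, Complex.mul_re, Complex.mul_re, Complex.conj_re,
      Complex.conj_im]
    ring
  rw [Finset.sum_congr rfl fun z _ => key z, Finset.sum_add_distrib]
  have h2 := ec_ne_one (two_ne_zero_zmod hN)
  have hA : ∑ z : G k N, (ec (w i z + w j z)).re = 0 := by
    have h := sum_ec_eq_zero (fun z => w i z + w j z) (fun _ => true) (2 : ZMod N)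
      (fun z => by simp only [w_add, w_stp, if_true]; ring) h2
    have h3 := congrArg Complex.re h
    rw [Complex.re_sum] at h3
    simpa using h3
  rw [hA, zero_add]
  by_cases hij : i = j
  · subst hij
    simp only [sub_self, if_true]
    have : (ec (0 : ZMod N)) = 1 := AddChar.map_zero_eq_one _
    rw [this]
    simp
  · rw [if_neg hij]
    have h := sum_ec_eq_zero (fun z => w i z - w j z) (fun l => decide (l = i)) (2 : ZMod N)
      (fun z => by
        simp only [w_add, w_stp]
        have hji : ¬ (j = i) := fun h => hij h.symm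
        simp [hji]
        ring) h2
    have h3 := congrArg Complex.re h
    rw [Complex.re_sum] at h3
    simpa using h3

/-- The size of the cyclic groups. -/
def NN (k : ℕ) : ℕ := 100 * 4 ^ k

instance (k : ℕ) : NeZero (NN k) := ⟨by unfold NN; positivity⟩

theorem NN_gt (k : ℕ) : 2 < NN k := by
  unfold NN
  have : 1 ≤ 4 ^ k := Nat.one_le_pow _ _ (by norm_num)
  omega

theorem ang_pos (k : ℕ) : 0 < ang (NN k) := by
  unfold ang
  have : (0 : ℝ) < NN k := by
    have := NN_gt k
    exact_mod_cast (by omega : 0 < NN k)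
  have := Real.pi_pos
  positivity

theorem ang_le (k : ℕ) : 4 ^ k * ang (NN k) ≤ 0.064 := by
  unfold ang NN
  push_cast
  have h4 : (0 : ℝ) < 4 ^ k := by positivity
  have e : (4 : ℝ) ^ k * (2 * π / (100 * 4 ^ k)) = 2 * π / 100 := by
    field_simp
  rw [e]
  have := Real.pi_lt_d2
  linarith

theorem ang_le' (k : ℕ) : ang (NN k) ≤ 0.064 := by
  have h := ang_le k
  have h4 : (1 : ℝ) ≤ 4 ^ k := one_le_pow₀ (by norm_num)
  have := ang_pos k
  nlinarith

/-- **Riesz product estimate.** -/
theorem sum_abs_coeff_le_aux (hN2 : 2 < N) (hα0' : 0 < ang N) (hα1' : ang N ≤ 0.064)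
    (hα4 : 4 ^ k * ang N ≤ 0.064) (f : G k N → ℝ) {L : ℝ}
    (hf : ∀ z σ, |f (z + stp N σ) - f z| ≤ L * ang N) :
    ∑ j, |2 / Fintype.card (G k N) * ∑ z, f z * Cs j z| ≤ 4 * L := by
  set α := ang N with hα
  set s := Real.sin α with hs
  have hα0 : 0 < α := hα0'
  have hα1 : α ≤ 0.064 := hα1'
  have hL : 0 ≤ L := by
    have h := (abs_nonneg _).trans (hf 0 (fun _ => true))
    exact nonneg_of_mul_nonneg_left h hα0
  have hs0 : 0 < s := Real.sin_pos_of_pos_of_lt_pi hα0 (by have := Real.pi_gt_three; linarith)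
  have hsα : s ≤ α := Real.sin_le hα0.le
  have hs34 : 3 / 4 * α ≤ s := by
    have h := Real.sin_gt_sub_cube hα0
    have h2 : α ^ 3 / 6 ≤ α / 4 := by
      have : α ^ 3 ≤ α := by
        have : α ^ 2 ≤ 1 := by nlinarith
        nlinarith
      linarith
    linarith
  have hcard : (0 : ℝ) < Fintype.card (G k N) := by
    exact_mod_cast Fintype.card_pos
  -- the signs
  set c : Fin k → ℝ := fun j => ∑ z, f z * Cs j z with hc
  let ε : Fin k → ℝ := fun j => if 0 ≤ c j then 1 else -1
  have hε : ∀ j, |ε j| ≤ 1 := by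
    intro j
    simp only [ε]
    split_ifs <;> simp
  have hεc : ∀ j, ε j * c j = |c j| := by
    intro j
    simp only [ε]
    split_ifs with h
    · rw [one_mul, abs_of_nonneg h]
    · rw [abs_of_neg (not_le.1 h)]; ring
  -- subtract the constant
  let g : G k N → ℝ := fun z => f z - f 0
  have hg : ∀ z σ, |g (z + stp N σ) - g z| ≤ L * α := by
    intro z σ
    simp only [g]
    rw [sub_sub_sub_cancel_right]
    exact hf z σ
  have hgc : ∀ j, ∑ z, g z * Cs j z = c j := by
    intro j
    simp only [g, hc]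
    rw [Finset.sum_congr rfl fun z _ => sub_mul (f z) (f 0) (Cs j z), Finset.sum_sub_distrib,
      ← Finset.mul_sum, sum_Cs (by omega), mul_zero, sub_zero]
  have hgD : ∀ z, |g z| ≤ 2 ^ k * (2 * π * L) := by
    intro z
    have h := path_bound f hf z
    have e : (N : ℝ) * (L * α) = 2 * π * L := by
      have hN0 : (N : ℝ) ≠ 0 := by
        exact_mod_cast (by omega : N ≠ 0)
      rw [hα]
      unfold ang
      field_simp
    rwa [e] at h
  have hflow := flow_bound hε g hg
  -- Taylor expansion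
  have htay : ∀ z : G k N, |(∏ j, (1 - ε j * s * Cs j z) - 1) + ∑ j, ε j * s * Cs j z| ≤
      2 ^ k * s ^ 2 := by
    intro z
    have h := (taylor_prod (Finset.univ : Finset (Fin k)) (fun j => ε j * s * Cs j z) hs0.le
      (by linarith) (by
        intro j
        rw [abs_mul, abs_mul, abs_of_pos hs0]
        calc |ε j| * s * |Cs j z| ≤ 1 * s * 1 := by
              apply mul_le_mul _ (abs_Cs_le j z) (abs_nonneg _) (by positivity)
              exact mul_le_mul_of_nonneg_right (hε j) hs0.le
          _ = s := by ring)).2.2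
    simpa using h
  have hsum : s * ∑ j, |c j| = ∑ z, g z * ∑ j, ε j * s * Cs j z := by
    calc s * ∑ j, |c j| = ∑ j, ε j * s * ∑ z, g z * Cs j z := by
          rw [Finset.mul_sum]
          apply Finset.sum_congr rfl
          intro j _
          rw [hgc, ← hεc]
          ring
      _ = ∑ j, ∑ z, g z * (ε j * s * Cs j z) := by
          apply Finset.sum_congr rfl
          intro j _
          rw [Finset.mul_sum]
          apply Finset.sum_congr rfl
          intro z _
          ring
      _ = ∑ z, ∑ j, g z * (ε j * s * Cs j z) := Finset.sum_comm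
      _ = _ := by
          apply Finset.sum_congr rfl
          intro z _
          rw [Finset.mul_sum]
  have hsplit : ∑ z, g z * ∑ j, ε j * s * Cs j z =
      ∑ z, g z * ((∏ j, (1 - ε j * s * Cs j z) - 1) + ∑ j, ε j * s * Cs j z) -
        ∑ z, g z * (∏ j, (1 - ε j * s * Cs j z) - 1) := by
    rw [← Finset.sum_sub_distrib]
    apply Finset.sum_congr rfl
    intro z _
    ring
  have hmain : s * ∑ j, |c j| ≤
      Fintype.card (G k N) * (2 ^ k * (2 * π * L) * (2 ^ k * s ^ 2)) +
        L * α * Fintype.card (G k N) := by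
    rw [hsum, hsplit]
    have h1 : |∑ z, g z * ((∏ j, (1 - ε j * s * Cs j z) - 1) + ∑ j, ε j * s * Cs j z)| ≤
        Fintype.card (G k N) * (2 ^ k * (2 * π * L) * (2 ^ k * s ^ 2)) := by
      calc _ ≤ ∑ z, |g z * ((∏ j, (1 - ε j * s * Cs j z) - 1) + ∑ j, ε j * s * Cs j z)| :=
            Finset.abs_sum_le_sum_abs _ _
        _ ≤ ∑ _z : G k N, (2 ^ k * (2 * π * L) * (2 ^ k * s ^ 2)) := by
            apply Finset.sum_le_sum
            intro z _
            rw [abs_mul]
            exact mul_le_mul (hgD z) (htay z) (abs_nonneg _)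
              ((abs_nonneg _).trans (hgD z))
        _ = _ := by rw [Finset.sum_const, Finset.card_univ, nsmul_eq_mul]
    have h2 := (abs_le.1 h1).2
    have h3 := (abs_le.1 hflow).1
    linarith
  have h22 : (2 : ℝ) ^ k * 2 ^ k = 4 ^ k := by
    rw [← mul_pow]; norm_num
  have hmain2 : ∑ j, |c j| ≤ Fintype.card (G k N) * (2 * L) := by
    have h4 := hα4
    have hpi := Real.pi_lt_d2
    have hpi0 := Real.pi_pos
    have e1 : (2 : ℝ) ^ k * (2 * π * L) * (2 ^ k * s ^ 2) = (4 ^ k * s) * (2 * π) * (L * s) := by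
      rw [← h22]; ring
    rw [e1] at hmain
    have h5 : (4 : ℝ) ^ k * s ≤ 0.064 := by
      have : (4 : ℝ) ^ k * s ≤ 4 ^ k * α := mul_le_mul_of_nonneg_left hsα (by positivity)
      linarith
    have h6 : (4 ^ k * s) * (2 * π) * (L * s) ≤ 0.064 * (2 * 3.15) * (L * s) := by
      apply mul_le_mul_of_nonneg_right _ (by positivity)
      apply mul_le_mul h5 (by linarith) (by positivity) (by norm_num)
    have h7 : L * α ≤ L * (4 / 3 * s) := mul_le_mul_of_nonneg_left (by linarith) hL
    have h8 : s * ∑ j, |c j| ≤ s * (Fintype.card (G k N) * (2 * L)) := by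
      calc s * ∑ j, |c j| ≤ Fintype.card (G k N) * ((4 ^ k * s) * (2 * π) * (L * s)) +
          L * α * Fintype.card (G k N) := hmain
        _ ≤ Fintype.card (G k N) * (0.064 * (2 * 3.15) * (L * s)) +
            L * (4 / 3 * s) * Fintype.card (G k N) :=
          add_le_add (mul_le_mul_of_nonneg_left h6 hcard.le)
            (mul_le_mul_of_nonneg_right h7 hcard.le)
        _ = Fintype.card (G k N) * (L * s) * (0.064 * (2 * 3.15) + 4 / 3) := by ring
        _ ≤ Fintype.card (G k N) * (L * s) * 2 := by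
            apply mul_le_mul_of_nonneg_left _ (by positivity)
            norm_num
        _ = _ := by ring
    exact le_of_mul_le_mul_left h8 hs0
  calc ∑ j, |2 / Fintype.card (G k N) * ∑ z, f z * Cs j z|
      = 2 / Fintype.card (G k N) * ∑ j, |c j| := by
        rw [Finset.mul_sum]
        apply Finset.sum_congr rfl
        intro j _
        rw [abs_mul, abs_of_pos (by positivity)]
    _ ≤ 2 / Fintype.card (G k N) * (Fintype.card (G k N) * (2 * L)) :=
        mul_le_mul_of_nonneg_left hmain2 (by positivity)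
    _ = 4 * L := by
        field_simp
        ring

theorem sum_abs_coeff_le (f : G k (NN k) → ℝ) {L : ℝ}
    (hf : ∀ z σ, |f (z + stp (NN k) σ) - f z| ≤ L * ang (NN k)) :
    ∑ j, |2 / Fintype.card (G k (NN k)) * ∑ z, f z * Cs j z| ≤ 4 * L :=
  sum_abs_coeff_le_aux (NN_gt k) (ang_pos k) (ang_le' k) (ang_le k) f hf

end Pool.Agent.LipL1
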