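import Pool.Agent.Lib.MP_327cb1_an_h68.Quot
import Pool.Agent.Lib.MP_327cb1_an_h68.Fourier

/-!
# `ℓ₁` is a quotient of `Lip₀(E)` when `E` contains the `ℓ₁ⁿ` uniformly
-/

open Filter Topology
open scoped BigOperators Real

namespace Pool.Agent.LipL1

/-! ### The cosines are Lipschitz -/

section Cos

variable {k N : ℕ} [NeZero N]

theorem norm_prod_sub_prod_le' {ι : Type*} (S : Finset ι) (a b : ι → ℂ) (ha : ∀ i, ‖a i‖ = 1)
    (hb : ∀ i, ‖b i‖ = 1) : ‖∏ i ∈ S, a i - ∏ i ∈ S, b i‖ ≤ ∑ i ∈ S, ‖a i - b i‖ := by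
  classical
  induction S using Finset.induction_on with
  | empty => simp
  | insert c S hc ih =>
    rw [Finset.prod_insert hc, Finset.prod_insert hc, Finset.sum_insert hc]
    have e : a c * ∏ i ∈ S, a i - b c * ∏ i ∈ S, b i =
        (a c - b c) * ∏ i ∈ S, a i + b c * (∏ i ∈ S, a i - ∏ i ∈ S, b i) := by ring
    rw [e]
    refine (norm_add_le _ _).trans ?_
    rw [norm_mul, norm_mul, hb c, one_mul, norm_prod, Finset.prod_congr rfl fun i _ => ha i,
      Finset.prod_const_one, mul_one]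
    exact add_le_add le_rfl ih

theorem ec_sum {ι : Type*} (S : Finset ι) (x : ι → ZMod N) :
    ec (∑ i ∈ S, x i) = ∏ i ∈ S, ec (x i) := by
  classical
  induction S using Finset.induction_on with
  | empty => simp [ec, AddChar.map_zero_eq_one]
  | insert c S hc ih => rw [Finset.sum_insert hc, Finset.prod_insert hc, ec_add, ih]

theorem Cs_lip (j : Fin k) (z y : G k N) :
    |Cs j z - Cs j y| ≤ ∑ σ, ‖ec (z σ) - ec (y σ)‖ := by
  unfold Cs
  rw [← Complex.sub_re]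
  refine (Complex.abs_re_le_norm _).trans ?_
  unfold w
  rw [ec_sum, ec_sum]
  refine (norm_prod_sub_prod_le' _ _ _ (fun σ => norm_ec _) (fun σ => norm_ec _)).trans ?_
  apply Finset.sum_le_sum
  intro σ _
  by_cases h : σ j
  · simp [h]
  · simp only [h, Bool.false_eq_true, if_false]
    rw [ec_neg, ec_neg, ← map_sub, Complex.norm_conj]

theorem norm_ec_one_sub_le : ‖ec (1 : ZMod N) - 1‖ ≤ |ang N| := by
  rw [ec_one_eq, mul_comm]
  exact Real.norm_exp_I_mul_ofReal_sub_one_le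

end Cos

/-! ### The embedded tori -/

variable {E : Type*} [NormedAddCommGroup E] [NormedSpace ℝ E]

/-- The coordinates of the embedding. -/
noncomputable def co {k N : ℕ} [NeZero N] (z : G k N) (i : (Fin k → Bool) × Bool) : ℝ :=
  if i.2 then (ec (z i.1)).re else (ec (z i.1)).im

theorem abs_co_le {k N : ℕ} [NeZero N] (z : G k N) (i : (Fin k → Bool) × Bool) :
    |co z i| ≤ 1 := by
  unfold co
  split_ifs
  · exact (Complex.abs_re_le_norm _).trans (norm_ec _).le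
  · exact (Complex.abs_im_le_norm _).trans (norm_ec _).le

/-- The embedding of the torus. -/
noncomputable def emb {k N : ℕ} [NeZero N] (u : (Fin k → Bool) × Bool → E) (z : G k N) : E :=
  ∑ i, co z i • u i

section emb

variable {k N : ℕ} [NeZero N] {u : (Fin k → Bool) × Bool → E}

theorem emb_sub (z y : G k N) : emb u z - emb u y = ∑ i, (co z i - co y i) • u i := by
  unfold emb
  rw [← Finset.sum_sub_distrib]
  exact Finset.sum_congr rfl fun i _ => (sub_smul _ _ _).symm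

theorem norm_emb_le (hu : ∀ i, ‖u i‖ ≤ 1) (z : G k N) : ‖emb u z‖ ≤ 2 ^ (k + 1) := by
  unfold emb
  calc ‖∑ i, co z i • u i‖ ≤ ∑ i, ‖co z i • u i‖ := norm_sum_le _ _
    _ ≤ ∑ _i : (Fin k → Bool) × Bool, (1 : ℝ) := by
        apply Finset.sum_le_sum
        intro i _
        rw [norm_smul, Real.norm_eq_abs]
        calc |co z i| * ‖u i‖ ≤ 1 * 1 :=
              mul_le_mul (abs_co_le z i) (hu i) (norm_nonneg _) zero_le_one
          _ = 1 := by norm_num
    _ = 2 ^ (k + 1) := by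
        simp
        ring

theorem norm_emb_stp_le (hu : ∀ i, ‖u i‖ ≤ 1) (z : G k N) (σ : Fin k → Bool) :
    ‖emb u (z + stp N σ) - emb u z‖ ≤ 2 * |ang N| := by
  rw [emb_sub]
  have hne : ∀ τ, τ ≠ σ → (z + stp N σ) τ = z τ := by
    intro τ hτ
    simp [stp, Pi.single_eq_of_ne hτ]
  have heq : (z + stp N σ) σ = z σ + 1 := by simp [stp]
  have hd : ‖ec (z σ + 1) - ec (z σ)‖ ≤ |ang N| := by
    rw [ec_add]
    have : ec (z σ) * ec (1 : ZMod N) - ec (z σ) = ec (z σ) * (ec (1 : ZMod N) - 1) := by ring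
    rw [this, norm_mul, norm_ec, one_mul]
    exact norm_ec_one_sub_le
  rw [Fintype.sum_prod_type, Finset.sum_eq_single σ]
  · rw [Fintype.sum_bool]
    refine (norm_add_le _ _).trans ?_
    rw [norm_smul, norm_smul, two_mul]
    have h1 : ‖co (z + stp N σ) (σ, true) - co z (σ, true)‖ ≤ |ang N| := by
      simp only [co, if_true, heq, ← Complex.sub_re]
      exact (Complex.abs_re_le_norm _).trans hd
    have h2 : ‖co (z + stp N σ) (σ, false) - co z (σ, false)‖ ≤ |ang N| := by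
      simp only [co, Bool.false_eq_true, if_false, heq, ← Complex.sub_im]
      exact (Complex.abs_im_le_norm _).trans hd
    have h3 : ∀ {a b : ℝ}, 0 ≤ a → a ≤ |ang N| → 0 ≤ b → b ≤ 1 → a * b ≤ |ang N| := by
      intro a b ha ha' hb hb'
      nlinarith
    exact add_le_add (h3 (norm_nonneg _) h1 (norm_nonneg _) (hu _))
      (h3 (norm_nonneg _) h2 (norm_nonneg _) (hu _))
  · intro τ _ hτ
    apply Finset.sum_eq_zero
    intro b _
    have : co (z + stp N σ) (τ, b) = co z (τ, b) := by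
      simp only [co, hne τ hτ]
    rw [this, sub_self, zero_smul]
  · simp

theorem Cs_lip_emb {C : ℝ}
    (hC : ∀ a : (Fin k → Bool) × Bool → ℝ, ∑ i, |a i| ≤ C * ‖∑ i, a i • u i‖)
    (j : Fin k) (z y : G k N) : |Cs j z - Cs j y| ≤ C * ‖emb u z - emb u y‖ := by
  refine (Cs_lip j z y).trans ?_
  rw [emb_sub]
  refine le_trans ?_ (hC _)
  rw [Fintype.sum_prod_type]
  apply Finset.sum_le_sum
  intro σ _
  rw [Fintype.sum_bool]
  simp only [co, if_true, Bool.false_eq_true, if_false, ← Complex.sub_re, ← Complex.sub_im]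
  exact Complex.norm_le_abs_re_add_abs_im _

end emb

/-! ### Extension of Lipschitz functions -/

theorem extend_family {E : Type*} [NormedAddCommGroup E] {I : Type*} (p : I → E) (v : I → ℝ) {K : ℝ} (hK0 : 0 ≤ K)
    (h : ∀ i j, |v i - v j| ≤ K * ‖p i - p j‖) :
    ∃ F : E → ℝ, (∀ x y, |F x - F y| ≤ K * ‖x - y‖) ∧ ∀ i, F (p i) = v i := by
  classical
  have hinj : ∀ i j, p i = p j → v i = v j := by
    intro i j hij
    have h1 := h i j
    rw [hij, sub_self, norm_zero, mul_zero] at h1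
    exact sub_eq_zero.1 (abs_eq_zero.1 (le_antisymm h1 (abs_nonneg _)))
  let f : E → ℝ := fun x => if hx : ∃ i, p i = x then v hx.choose else 0
  have hf : ∀ i, f (p i) = v i := by
    intro i
    have hx : ∃ j, p j = p i := ⟨i, rfl⟩
    have e : f (p i) = v hx.choose := dif_pos hx
    rw [e]
    exact hinj _ _ hx.choose_spec
  have hlip : LipschitzOnWith ⟨K, hK0⟩ f (Set.range p) := by
    apply LipschitzOnWith.of_dist_le_mul
    rintro _ ⟨i, rfl⟩ _ ⟨j, rfl⟩
    rw [hf, hf, Real.dist_eq, dist_eq_norm]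
    exact h i j
  obtain ⟨g, hg, hgf⟩ := hlip.extend_real
  refine ⟨g, fun x y => ?_, fun i => ?_⟩
  · have := hg.dist_le_mul x y
    rw [Real.dist_eq, dist_eq_norm] at this
    exact this
  · rw [← hgf ⟨i, rfl⟩, hf]

/-! ### The functionals -/

section main

variable (u : ∀ k : ℕ, (Fin k → Bool) × Bool → E) (u₀ : E)

/-- The points. -/
noncomputable def pt (k : ℕ) (z : G k (NN k)) : E := (8 : ℝ) ^ (k + 1) • u₀ + emb (u k) z

/-- The functionals. -/
noncomputable def AA (k j : ℕ) : Lip0 E →ₗ[ℝ] ℝ where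
  toFun F := if h : j < k then
    2 / Fintype.card (G k (NN k)) * ∑ z : G k (NN k), F (pt u u₀ k z) * Cs ⟨j, h⟩ z else 0
  map_add' F G := by
    split_ifs with h
    · rw [← mul_add, ← Finset.sum_add_distrib]
      congr 1
      apply Finset.sum_congr rfl
      intro z _
      rw [Lip0.add_apply, add_mul]
    · simp
  map_smul' c F := by
    split_ifs with h
    · rw [RingHom.id_apply, smul_eq_mul, mul_left_comm]
      congr 1
      rw [Finset.mul_sum]
      apply Finset.sum_congr rfl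
      intro z _
      rw [Lip0.smul_apply, mul_assoc]
    · simp

theorem AA_apply {k : ℕ} (j : Fin k) (F : Lip0 E) : AA u u₀ k j F =
    2 / Fintype.card (G k (NN k)) * ∑ z : G k (NN k), F (pt u u₀ k z) * Cs j z := by
  have : AA u u₀ k j F = if h : (j : ℕ) < k then
    2 / Fintype.card (G k (NN k)) * ∑ z : G k (NN k), F (pt u u₀ k z) * Cs ⟨j, h⟩ z else 0 := rfl
  rw [this, dif_pos j.2]

variable {u u₀}

theorem sum_AA_le (hu : ∀ k i, ‖u k i‖ ≤ 1) (k : ℕ) (F : Lip0 E) :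
    ∑ j ∈ Finset.range k, |AA u u₀ k j F| ≤ 8 * ‖F‖ := by
  rw [Finset.sum_range]
  rw [Finset.sum_congr rfl fun j _ => by rw [AA_apply]]
  have h := sum_abs_coeff_le (k := k) (fun z => F (pt u u₀ k z)) (L := 2 * ‖F‖) (by
    intro z σ
    refine (F.abs_sub_le_norm _ _).trans ?_
    have h1 := norm_emb_stp_le (hu k) z σ
    rw [abs_of_pos (ang_pos k)] at h1
    have e : pt u u₀ k (z + stp (NN k) σ) - pt u u₀ k z =
        emb (u k) (z + stp (NN k) σ) - emb (u k) z := by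
      unfold pt
      abel
    rw [e]
    have h2 := mul_le_mul_of_nonneg_left h1 (norm_nonneg F)
    linarith)
  linarith

theorem dist_pt_ge (hu : ∀ k i, ‖u k i‖ ≤ 1) (hu0 : ‖u₀‖ = 1) {k l : ℕ} (hkl : k < l)
    (z : G k (NN k)) (y : G l (NN l)) : 1 ≤ ‖pt u u₀ k z - pt u u₀ l y‖ := by
  have e : pt u u₀ k z - pt u u₀ l y =
      ((8 : ℝ) ^ (k + 1) • u₀ + emb (u k) z) - emb (u l) y - (8 : ℝ) ^ (l + 1) • u₀ := by
    unfold pt
    abel
  have h1 : ‖(8 : ℝ) ^ (l + 1) • u₀‖ = 8 ^ (l + 1) := by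
    rw [norm_smul, hu0, mul_one, Real.norm_eq_abs, abs_of_pos (by positivity)]
  have h2 : ‖(8 : ℝ) ^ (k + 1) • u₀‖ = 8 ^ (k + 1) := by
    rw [norm_smul, hu0, mul_one, Real.norm_eq_abs, abs_of_pos (by positivity)]
  have h3 := norm_emb_le (hu k) z
  have h4 := norm_emb_le (hu l) y
  have h5 : ‖(8 : ℝ) ^ (l + 1) • u₀‖ ≤ ‖pt u u₀ k z - pt u u₀ l y‖ +
      (‖(8 : ℝ) ^ (k + 1) • u₀‖ + ‖emb (u k) z‖ + ‖emb (u l) y‖) := by
    have e2 : (8 : ℝ) ^ (l + 1) • u₀ =
        ((8 : ℝ) ^ (k + 1) • u₀ + emb (u k) z - emb (u l) y) - (pt u u₀ k z - pt u u₀ l y) := by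
      unfold pt
      abel
    calc ‖(8 : ℝ) ^ (l + 1) • u₀‖ = ‖((8 : ℝ) ^ (k + 1) • u₀ + emb (u k) z - emb (u l) y) -
          (pt u u₀ k z - pt u u₀ l y)‖ := congrArg norm e2
      _ ≤ ‖(8 : ℝ) ^ (k + 1) • u₀ + emb (u k) z - emb (u l) y‖ +
          ‖pt u u₀ k z - pt u u₀ l y‖ := norm_sub_le _ _
      _ ≤ _ := by
          have := norm_sub_le ((8 : ℝ) ^ (k + 1) • u₀ + emb (u k) z) (emb (u l) y)
          have := norm_add_le ((8 : ℝ) ^ (k + 1) • u₀) (emb (u k) z)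
          linarith
  rw [h1, h2] at h5
  have h6 : (8 : ℝ) ^ (k + 1) ≤ 8 ^ l := pow_le_pow_right₀ (by norm_num) hkl
  have h7 : (2 : ℝ) ^ (k + 1) ≤ 8 ^ l :=
    (pow_le_pow_right₀ (by norm_num) hkl).trans (pow_le_pow_left₀ (by norm_num) (by norm_num) l)
  have h8 : (2 : ℝ) ^ (l + 1) ≤ 2 * 8 ^ l := by
    have : (2 : ℝ) ^ l ≤ 8 ^ l := pow_le_pow_left₀ (by norm_num) (by norm_num) l
    rw [pow_succ]
    linarith
  have h9 : (8 : ℝ) ^ (l + 1) = 8 * 8 ^ l := by rw [pow_succ]; ring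
  have h10 : (1 : ℝ) ≤ 8 ^ l := one_le_pow₀ (by norm_num)
  linarith

theorem norm_pt_ge (hu : ∀ k i, ‖u k i‖ ≤ 1) (hu0 : ‖u₀‖ = 1) (k : ℕ)
    (z : G k (NN k)) : 1 ≤ ‖pt u u₀ k z‖ := by
  have h1 : ‖(8 : ℝ) ^ (k + 1) • u₀‖ = 8 ^ (k + 1) := by
    rw [norm_smul, hu0, mul_one, Real.norm_eq_abs, abs_of_pos (by positivity)]
  have h3 := norm_emb_le (hu k) z
  have h5 : ‖(8 : ℝ) ^ (k + 1) • u₀‖ ≤ ‖pt u u₀ k z‖ + ‖emb (u k) z‖ := by
    have e2 : (8 : ℝ) ^ (k + 1) • u₀ = pt u u₀ k z - emb (u k) z := by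
      unfold pt
      abel
    calc ‖(8 : ℝ) ^ (k + 1) • u₀‖ = ‖pt u u₀ k z - emb (u k) z‖ := congrArg norm e2
      _ ≤ _ := norm_sub_le _ _
  rw [h1] at h5
  have h8 : (2 : ℝ) ^ (k + 1) ≤ 2 * 8 ^ k := by
    have : (2 : ℝ) ^ k ≤ 8 ^ k := pow_le_pow_left₀ (by norm_num) (by norm_num) k
    rw [pow_succ]
    linarith
  have h9 : (8 : ℝ) ^ (k + 1) = 8 * 8 ^ k := by rw [pow_succ]; ring
  have h10 : (1 : ℝ) ≤ 8 ^ k := one_le_pow₀ (by norm_num)
  linarith

/-- The values of the lift of `b`. -/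
noncomputable def val (b : ℕ → ℝ) (k : ℕ) (z : G k (NN k)) : ℝ := ∑ j : Fin k, b j * Cs j z

theorem abs_val_le {b : ℕ → ℝ} {B : ℝ} (hb : ∀ k, ∑ j : Fin k, |b j| ≤ B) (k : ℕ)
    (z : G k (NN k)) : |val b k z| ≤ B := by
  unfold val
  refine (Finset.abs_sum_le_sum_abs _ _).trans (le_trans ?_ (hb k))
  apply Finset.sum_le_sum
  intro j _
  rw [abs_mul]
  calc |b j| * |Cs j z| ≤ |b j| * 1 := mul_le_mul_of_nonneg_left (abs_Cs_le j z) (abs_nonneg _)
    _ = |b j| := mul_one _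

theorem abs_val_sub_le {b : ℕ → ℝ} {B C : ℝ} (hb : ∀ k, ∑ j : Fin k, |b j| ≤ B)
    (hC : ∀ k, ∀ a : (Fin k → Bool) × Bool → ℝ, ∑ i, |a i| ≤ C * ‖∑ i, a i • u k i‖)
    (hC0 : 0 ≤ C) (k : ℕ) (z y : G k (NN k)) :
    |val b k z - val b k y| ≤ C * B * ‖emb (u k) z - emb (u k) y‖ := by
  unfold val
  rw [← Finset.sum_sub_distrib]
  refine (Finset.abs_sum_le_sum_abs _ _).trans ?_
  calc ∑ j : Fin k, |b j * Cs j z - b j * Cs j y|
      ≤ ∑ j : Fin k, |b j| * (C * ‖emb (u k) z - emb (u k) y‖) := by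
        apply Finset.sum_le_sum
        intro j _
        rw [← mul_sub, abs_mul]
        exact mul_le_mul_of_nonneg_left (Cs_lip_emb (hC k) j z y) (abs_nonneg _)
    _ = (∑ j : Fin k, |b j|) * (C * ‖emb (u k) z - emb (u k) y‖) := by rw [Finset.sum_mul]
    _ ≤ B * (C * ‖emb (u k) z - emb (u k) y‖) :=
        mul_le_mul_of_nonneg_right (hb k) (by positivity)
    _ = _ := by ring

theorem exists_lift (hu : ∀ k i, ‖u k i‖ ≤ 1) (hu0 : ‖u₀‖ = 1) {C : ℝ} (hC0 : 0 ≤ C)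
    (hC : ∀ k, ∀ a : (Fin k → Bool) × Bool → ℝ, ∑ i, |a i| ≤ C * ‖∑ i, a i • u k i‖)
    (b : lp (fun _ : ℕ => ℝ) 1) : ∃ F : Lip0 E, ‖F‖ ≤ max C 2 * ‖b‖ ∧
      ∀ k, ∀ j < k, AA u u₀ k j F = b j := by
  have hb : ∀ k, ∑ j : Fin k, |b j| ≤ ‖b‖ := by
    intro k
    rw [norm_l1, ← Finset.sum_range (f := fun j => |b j|)]
    exact (summable_l1 b).sum_le_tsum _ fun _ _ => abs_nonneg _
  have hb0 : 0 ≤ ‖b‖ := norm_nonneg b
  have hK0 : 0 ≤ max C 2 * ‖b‖ := mul_nonneg (le_max_of_le_left hC0) hb0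
  let p : Option (Σ k, G k (NN k)) → E := fun i => i.elim 0 fun q => pt u u₀ q.1 q.2
  let v : Option (Σ k, G k (NN k)) → ℝ := fun i => i.elim 0 fun q => val (fun j => b j) q.1 q.2
  have hB : ∀ {d : ℝ}, 1 ≤ d → 2 * ‖b‖ ≤ max C 2 * ‖b‖ * d := by
    intro d hd
    have h1 : 2 * ‖b‖ ≤ max C 2 * ‖b‖ := mul_le_mul_of_nonneg_right (le_max_right _ _) hb0
    nlinarith
  have hlt : ∀ {k l : ℕ} (_ : k < l) (z : G k (NN k)) (y : G l (NN l)),
      |val (fun j => b j) k z - val (fun j => b j) l y| ≤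
        max C 2 * ‖b‖ * ‖pt u u₀ k z - pt u u₀ l y‖ := by
    intro k l hkl z y
    refine le_trans ?_ (hB (dist_pt_ge hu hu0 hkl z y))
    have h1 := abs_val_le hb k z
    have h2 := abs_val_le hb l y
    have h3 := abs_sub (val (fun j => b j) k z) (val (fun j => b j) l y)
    linarith
  have h : ∀ i j, |v i - v j| ≤ max C 2 * ‖b‖ * ‖p i - p j‖ := by
    rintro (_ | ⟨k, z⟩) (_ | ⟨l, y⟩)
    · simp [v, p]
    · simp only [v, p, Option.elim]
      rw [zero_sub, zero_sub, abs_neg, norm_neg]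
      refine le_trans ?_ (hB (norm_pt_ge hu hu0 l y))
      have := abs_val_le hb l y
      linarith
    · simp only [v, p, Option.elim]
      rw [sub_zero, sub_zero]
      refine le_trans ?_ (hB (norm_pt_ge hu hu0 k z))
      have := abs_val_le hb k z
      linarith
    · simp only [v, p, Option.elim]
      rcases lt_trichotomy k l with hkl | hkl | hkl
      · exact hlt hkl z y
      · subst hkl
        have h1 := abs_val_sub_le hb hC hC0 k z y
        have e : pt u u₀ k z - pt u u₀ k y = emb (u k) z - emb (u k) y := by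
          unfold pt
          abel
        rw [e]
        refine h1.trans ?_
        apply mul_le_mul_of_nonneg_right _ (norm_nonneg _)
        exact mul_le_mul_of_nonneg_right (le_max_left _ _) hb0
      · rw [abs_sub_comm, norm_sub_rev]
        exact hlt hkl y z
  obtain ⟨F, hF1, hF2⟩ := extend_family p v hK0 h
  have hF0 : F 0 = 0 := hF2 none
  have hFv : ∀ k z, F (pt u u₀ k z) = val (fun j => b j) k z := fun k z => hF2 (some ⟨k, z⟩)
  let F' : Lip0 E := ⟨F, hF0, max C 2 * ‖b‖, hF1⟩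
  refine ⟨F', Lip0.norm_le hK0 hF1, ?_⟩
  intro k j hjk
  have e := AA_apply u u₀ (⟨j, hjk⟩ : Fin k) F'
  have e' : AA u u₀ k j F' = AA u u₀ k ((⟨j, hjk⟩ : Fin k) : ℕ) F' := rfl
  rw [e', e]
  have hF' : ∀ z, F' (pt u u₀ k z) = val (fun j => b j) k z := hFv k
  have hcard : (0 : ℝ) < Fintype.card (G k (NN k)) := by
    exact_mod_cast Fintype.card_pos
  have h2 : ∑ z : G k (NN k), F' (pt u u₀ k z) * Cs ⟨j, hjk⟩ z =
      (Fintype.card (G k (NN k)) : ℝ) / 2 * b j := by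
    calc ∑ z : G k (NN k), F' (pt u u₀ k z) * Cs ⟨j, hjk⟩ z
        = ∑ z : G k (NN k), ∑ i : Fin k, b i / 2 * (2 * (Cs i z * Cs ⟨j, hjk⟩ z)) := by
          apply Finset.sum_congr rfl
          intro z _
          rw [hF', val, Finset.sum_mul]
          apply Finset.sum_congr rfl
          intro i _
          ring
      _ = ∑ i : Fin k, b i / 2 * ∑ z : G k (NN k), 2 * (Cs i z * Cs ⟨j, hjk⟩ z) := by
          rw [Finset.sum_comm]
          apply Finset.sum_congr rfl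
          intro i _
          rw [Finset.mul_sum]
      _ = ∑ i : Fin k, b i / 2 *
            (if i = ⟨j, hjk⟩ then (Fintype.card (G k (NN k)) : ℝ) else 0) := by
          apply Finset.sum_congr rfl
          intro i _
          rw [sum_Cs_mul (NN_gt k)]
      _ = _ := by
          rw [Finset.sum_eq_single ⟨j, hjk⟩]
          · rw [if_pos rfl]; ring
          · intro i _ hi
            rw [if_neg hi, mul_zero]
          · simp
  rw [h2]
  field_simp

end main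

/-- **Main theorem.** -/
theorem main (hE : ContainsL1nUniformly E) :
    ∃ (T : Lip0 E →L[ℝ] lp (fun _ : ℕ => ℝ) 1) (K : ℝ),
      ∀ b : lp (fun _ : ℕ => ℝ) 1, ∃ F : Lip0 E, ‖F‖ ≤ K * ‖b‖ ∧ T F = b := by
  obtain ⟨C', hC'⟩ := hE
  -- a nonnegative constant
  set C := max C' 0 with hCdef
  have hC0 : 0 ≤ C := le_max_right _ _
  have hCC : ∀ n : ℕ, ∃ e : Fin n → E, (∀ i, ‖e i‖ ≤ 1) ∧
      ∀ a : Fin n → ℝ, ∑ i, |a i| ≤ C * ‖∑ i, a i • e i‖ := by
    intro n
    obtain ⟨e, he1, he2⟩ := hC' n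
    exact ⟨e, he1, fun a => (he2 a).trans
      (mul_le_mul_of_nonneg_right (le_max_left _ _) (norm_nonneg _))⟩
  have h1 : ∀ k : ℕ, ∃ u : (Fin k → Bool) × Bool → E, (∀ i, ‖u i‖ ≤ 1) ∧
      ∀ a : (Fin k → Bool) × Bool → ℝ, ∑ i, |a i| ≤ C * ‖∑ i, a i • u i‖ := by
    intro k
    obtain ⟨e, he1, he2⟩ := hCC (Fintype.card ((Fin k → Bool) × Bool))
    let φ := Fintype.equivFin ((Fin k → Bool) × Bool)
    refine ⟨fun i => e (φ i), fun i => he1 _, fun a => ?_⟩
    have h := he2 fun i => a (φ.symm i)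
    rw [← Equiv.sum_comp φ, ← Equiv.sum_comp φ (fun i => a (φ.symm i) • e i)] at h
    simpa using h
  choose u hu1 hu2 using h1
  obtain ⟨e, he1, he2⟩ := hCC 1
  have he0 : e 0 ≠ 0 := by
    intro h0
    have h := he2 fun _ => 1
    simp [h0] at h
    exact absurd h (by norm_num)
  have hn0 : ‖e 0‖ ≠ 0 := norm_ne_zero_iff.2 he0
  let u₀ : E := ‖e 0‖⁻¹ • e 0
  have hu0 : ‖u₀‖ = 1 := by
    simp only [u₀]
    rw [norm_smul, norm_inv, norm_norm, inv_mul_cancel₀ hn0]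
  obtain ⟨T, hT⟩ := quotient_l1 (AA u u₀) (fun k F => sum_AA_le hu1 k F)
    (fun b => exists_lift hu1 hu0 hC0 hu2 b)
  exact ⟨T, _, hT⟩

end Pool.Agent.LipL1
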