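import Pool.Agent.Lib.MP_327cb1_an_h68.Main

/-!
# `Lip₀(E)` is complete, and the quotient map onto `ℓ₁` splits
-/

open Filter Topology

namespace Pool.Agent.LipL1

instance {E : Type*} [NormedAddCommGroup E] : CompleteSpace (Lip0 E) := by
  apply Metric.complete_of_cauchySeq_tendsto
  intro f hf
  have hC : ∀ x : E, CauchySeq fun n => f n x := by
    intro x
    rw [Metric.cauchySeq_iff] at hf ⊢
    intro ε hε
    obtain ⟨N, hN⟩ := hf (ε / (‖x‖ + 1)) (by positivity)
    refine ⟨N, fun m hm n hn => ?_⟩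
    have h1 := hN m hm n hn
    rw [dist_eq_norm] at h1
    have h2 := (f m - f n).abs_apply_le x
    rw [Lip0.sub_apply] at h2
    rw [Real.dist_eq]
    calc |f m x - f n x| ≤ ‖f m - f n‖ * ‖x‖ := h2
      _ ≤ ‖f m - f n‖ * (‖x‖ + 1) := by
          apply mul_le_mul_of_nonneg_left _ (norm_nonneg _)
          linarith
      _ < ε / (‖x‖ + 1) * (‖x‖ + 1) := mul_lt_mul_of_pos_right h1 (by positivity)
      _ = ε := div_mul_cancel₀ _ (by positivity)
  have hlim : ∀ x : E, ∃ a, Tendsto (fun n => f n x) atTop (𝓝 a) := fun x =>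
    cauchySeq_tendsto_of_complete (hC x)
  choose g hg using hlim
  have key : ∀ ε > 0, ∃ N, ∀ n ≥ N, ∀ x y, |(f n x - g x) - (f n y - g y)| ≤ ε * ‖x - y‖ := by
    intro ε hε
    rw [Metric.cauchySeq_iff] at hf
    obtain ⟨N, hN⟩ := hf ε hε
    refine ⟨N, fun n hn x y => ?_⟩
    have h1 : Tendsto (fun m => |(f n x - f m x) - (f n y - f m y)|) atTop
        (𝓝 |(f n x - g x) - (f n y - g y)|) :=
      ((tendsto_const_nhds.sub (hg x)).sub (tendsto_const_nhds.sub (hg y))).abs
    refine le_of_tendsto h1 ?_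
    filter_upwards [eventually_ge_atTop N] with m hm
    have h2 := (f n - f m).abs_sub_le_norm x y
    rw [Lip0.sub_apply, Lip0.sub_apply] at h2
    have h3 := hN n hn m hm
    rw [dist_eq_norm] at h3
    exact h2.trans (mul_le_mul_of_nonneg_right h3.le (norm_nonneg _))
  obtain ⟨N₁, hN₁⟩ := key 1 one_pos
  let G : Lip0 E := ⟨g, by
    refine ⟨?_, ‖f N₁‖ + 1, fun x y => ?_⟩
    · have h := hg 0
      have h0 : (fun n => f n (0 : E)) = fun _ => (0 : ℝ) := by
        ext n
        exact (f n).map_zero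
      rw [h0] at h
      exact tendsto_nhds_unique h tendsto_const_nhds
    · have h1 := hN₁ N₁ le_rfl x y
      have h2 := (f N₁).abs_sub_le_norm x y
      have e : g x - g y = (f N₁ x - f N₁ y) - ((f N₁ x - g x) - (f N₁ y - g y)) := by ring
      rw [e, add_mul]
      exact (abs_sub _ _).trans (add_le_add h2 h1)⟩
  have hG : ∀ x, G x = g x := fun x => rfl
  refine ⟨G, ?_⟩
  rw [Metric.tendsto_atTop]
  intro ε hε
  obtain ⟨N, hN⟩ := key (ε / 2) (by positivity)
  refine ⟨N, fun n hn => ?_⟩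
  rw [dist_eq_norm]
  refine lt_of_le_of_lt (Lip0.norm_le (K := ε / 2) (by positivity) fun x y => ?_) (by linarith)
  rw [Lip0.sub_apply, Lip0.sub_apply, hG, hG]
  exact hN n hn x y

variable {X : Type*} [NormedAddCommGroup X] [NormedSpace ℝ X]

/-- A bounded linear map onto `ℓ₁` with bounded lifts has a right inverse. -/
theorem exists_rightInverse [CompleteSpace X] (T : X →L[ℝ] lp (fun _ : ℕ => ℝ) 1) {K : ℝ}
    (hT : ∀ b : lp (fun _ : ℕ => ℝ) 1, ∃ F : X, ‖F‖ ≤ K * ‖b‖ ∧ T F = b) :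
    ∃ S : lp (fun _ : ℕ => ℝ) 1 →L[ℝ] X, T ∘L S = ContinuousLinearMap.id ℝ _ := by
  have hlift : ∀ N : ℕ, ∃ F : X, ‖F‖ ≤ K ∧ T F = lp.single 1 N (1 : ℝ) := by
    intro N
    obtain ⟨F, hF1, hF2⟩ := hT (lp.single 1 N (1 : ℝ))
    refine ⟨F, ?_, hF2⟩
    rw [lp.norm_single (by norm_num)] at hF1
    simpa using hF1
  choose F hF1 hF2 using hlift
  have hle : ∀ (b : lp (fun _ : ℕ => ℝ) 1) (N : ℕ), ‖b N • F N‖ ≤ |b N| * K := fun b N => by
    rw [norm_smul, Real.norm_eq_abs]
    exact mul_le_mul_of_nonneg_left (hF1 N) (abs_nonneg _)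
  have hsn : ∀ b : lp (fun _ : ℕ => ℝ) 1, Summable fun N => ‖b N • F N‖ := fun b =>
    Summable.of_nonneg_of_le (fun _ => norm_nonneg _) (hle b) ((summable_l1 b).mul_right K)
  have hs : ∀ b : lp (fun _ : ℕ => ℝ) 1, Summable fun N => b N • F N := fun b => (hsn b).of_norm
  let S : lp (fun _ : ℕ => ℝ) 1 →L[ℝ] X :=
    LinearMap.mkContinuous
      { toFun := fun b => ∑' N, b N • F N
        map_add' := fun b c => by
          rw [← (hs b).tsum_add (hs c)]
          congr 1
          ext N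
          rw [lp.coeFn_add, Pi.add_apply, add_smul]
        map_smul' := fun r b => by
          rw [RingHom.id_apply, ← (hs b).tsum_const_smul]
          congr 1
          ext N
          rw [lp.coeFn_smul, Pi.smul_apply, smul_eq_mul, mul_smul] }
      K (fun b => by
        calc ‖∑' N, b N • F N‖ ≤ ∑' N, ‖b N • F N‖ := norm_tsum_le_tsum_norm (hsn b)
          _ ≤ ∑' N, |b N| * K := (hsn b).tsum_le_tsum (hle b) ((summable_l1 b).mul_right K)
          _ = K * ‖b‖ := by rw [tsum_mul_right, norm_l1, mul_comm])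
  refine ⟨S, ?_⟩
  ext b j
  have e : S b = ∑' N, b N • F N := rfl
  rw [ContinuousLinearMap.comp_apply, e, ContinuousLinearMap.map_tsum T (hs b),
    ContinuousLinearMap.id_apply]
  have h1 : ∀ N, T (b N • F N) = lp.single 1 N (b N) := by
    intro N
    rw [map_smul, hF2, ← lp.single_smul, smul_eq_mul, mul_one]
  simp only [h1]
  have h2 := lp.hasSum_single (p := 1) (by norm_num) b
  rw [h2.tsum_eq]

end Pool.Agent.LipL1
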