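import Mathlib

/-!
# The Banach space `Lip₀(E)` and the Grothendieck property
-/

open Filter Topology

namespace Pool.Agent.LipL1

/-- The vector space of real Lipschitz functions on `E` vanishing at `0`. -/
def lipSubmodule (E : Type*) [NormedAddCommGroup E] : Submodule ℝ (E → ℝ) where
  carrier := {f | f 0 = 0 ∧ ∃ K : ℝ, ∀ x y, |f x - f y| ≤ K * ‖x - y‖}
  add_mem' := by
    rintro f g ⟨hf0, K, hK⟩ ⟨hg0, L, hL⟩
    refine ⟨by simp [hf0, hg0], K + L, fun x y => ?_⟩
    have e : (f + g) x - (f + g) y = (f x - f y) + (g x - g y) := by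
      simp only [Pi.add_apply]; ring
    rw [e, add_mul]
    exact (abs_add_le _ _).trans (add_le_add (hK x y) (hL x y))
  zero_mem' := ⟨rfl, 0, fun x y => by simp⟩
  smul_mem' := by
    rintro c f ⟨hf0, K, hK⟩
    refine ⟨by simp [hf0], |c| * K, fun x y => ?_⟩
    have e : (c • f) x - (c • f) y = c * (f x - f y) := by
      simp only [Pi.smul_apply, smul_eq_mul]; ring
    rw [e, abs_mul, mul_assoc]
    exact mul_le_mul_of_nonneg_left (hK x y) (abs_nonneg c)

/-- `Lip₀(E)`: the real Lipschitz functions on `E` vanishing at `0`. -/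
def Lip0 (E : Type*) [NormedAddCommGroup E] : Type _ := lipSubmodule E

namespace Lip0

variable {E : Type*} [NormedAddCommGroup E]

noncomputable instance : AddCommGroup (Lip0 E) := inferInstanceAs (AddCommGroup (lipSubmodule E))

noncomputable instance : Module ℝ (Lip0 E) := inferInstanceAs (Module ℝ (lipSubmodule E))

instance : CoeFun (Lip0 E) fun _ => E → ℝ := ⟨fun f => f.1⟩

@[ext] theorem ext {f g : Lip0 E} (h : ∀ x, f x = g x) : f = g := Subtype.ext (funext h)

@[simp] theorem add_apply (f g : Lip0 E) (x : E) : (f + g) x = f x + g x := rfl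
@[simp] theorem neg_apply (f : Lip0 E) (x : E) : (-f) x = -f x := rfl
@[simp] theorem sub_apply (f g : Lip0 E) (x : E) : (f - g) x = f x - g x := by
  rw [sub_eq_add_neg, add_apply, neg_apply, sub_eq_add_neg]
@[simp] theorem zero_apply (x : E) : (0 : Lip0 E) x = 0 := rfl
@[simp] theorem smul_apply (c : ℝ) (f : Lip0 E) (x : E) : (c • f) x = c * f x := rfl

theorem map_zero (f : Lip0 E) : f 0 = 0 := f.2.1

/-- The best Lipschitz constant. -/
noncomputable def lipConst (f : Lip0 E) : ℝ := ⨆ p : E × E, |f p.1 - f p.2| / ‖p.1 - p.2‖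

theorem div_le {f : Lip0 E} {K : ℝ} (hK0 : 0 ≤ K) (hK : ∀ x y, |f x - f y| ≤ K * ‖x - y‖)
    (p : E × E) : |f p.1 - f p.2| / ‖p.1 - p.2‖ ≤ K := by
  rcases eq_or_lt_of_le (norm_nonneg (p.1 - p.2)) with h | h
  · rw [← h, div_zero]; exact hK0
  · rw [div_le_iff₀ h]; exact hK _ _

theorem bddAbove (f : Lip0 E) :
    BddAbove (Set.range fun p : E × E => |f p.1 - f p.2| / ‖p.1 - p.2‖) := by
  obtain ⟨K, hK⟩ := f.2.2
  refine ⟨|K|, ?_⟩
  rintro _ ⟨p, rfl⟩
  exact div_le (abs_nonneg K)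
    (fun x y => (hK x y).trans (mul_le_mul_of_nonneg_right (le_abs_self K) (norm_nonneg _))) p

theorem lipConst_nonneg (f : Lip0 E) : 0 ≤ lipConst f :=
  Real.iSup_nonneg fun _ => by positivity

theorem abs_sub_le (f : Lip0 E) (x y : E) : |f x - f y| ≤ lipConst f * ‖x - y‖ := by
  rcases eq_or_lt_of_le (norm_nonneg (x - y)) with h | h
  · have : x = y := by
      rw [← sub_eq_zero]; exact norm_eq_zero.1 h.symm
    subst this
    simp
  · rw [← div_le_iff₀ h]
    exact le_ciSup (bddAbove f) (x, y)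

theorem lipConst_le {f : Lip0 E} {K : ℝ} (hK0 : 0 ≤ K)
    (hK : ∀ x y, |f x - f y| ≤ K * ‖x - y‖) : lipConst f ≤ K :=
  ciSup_le (div_le hK0 hK)

/-- The norm of `Lip₀(E)` is the best Lipschitz constant. -/
noncomputable def lipNorm : AddGroupNorm (Lip0 E) where
  toFun := lipConst
  map_zero' := le_antisymm (lipConst_le le_rfl fun x y => by simp) (lipConst_nonneg _)
  add_le' f g := lipConst_le (add_nonneg (lipConst_nonneg f) (lipConst_nonneg g)) fun x y => by
    have e : (f + g) x - (f + g) y = (f x - f y) + (g x - g y) := by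
      simp only [add_apply]; ring
    rw [e, add_mul]
    exact (abs_add_le _ _).trans (add_le_add (abs_sub_le f x y) (abs_sub_le g x y))
  neg' f := by
    unfold lipConst
    congr 1
    ext p
    rw [neg_apply, neg_apply, ← neg_sub', abs_neg]
  eq_zero_of_map_eq_zero' f hf := by
    ext x
    have h := abs_sub_le f x 0
    have hf' : lipConst f = 0 := hf
    rw [hf', zero_mul, map_zero, sub_zero] at h
    exact abs_eq_zero.1 (le_antisymm h (abs_nonneg _))

noncomputable instance : NormedAddCommGroup (Lip0 E) := lipNorm.toNormedAddCommGroup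

theorem norm_def (f : Lip0 E) : ‖f‖ = ⨆ p : E × E, |f p.1 - f p.2| / ‖p.1 - p.2‖ := rfl

theorem abs_sub_le_norm (f : Lip0 E) (x y : E) : |f x - f y| ≤ ‖f‖ * ‖x - y‖ := abs_sub_le f x y

theorem norm_le {f : Lip0 E} {K : ℝ} (hK0 : 0 ≤ K)
    (hK : ∀ x y, |f x - f y| ≤ K * ‖x - y‖) : ‖f‖ ≤ K := lipConst_le hK0 hK

theorem abs_apply_le (f : Lip0 E) (x : E) : |f x| ≤ ‖f‖ * ‖x‖ := by
  have h := abs_sub_le_norm f x 0
  rwa [map_zero, sub_zero, sub_zero] at h

noncomputable instance : NormedSpace ℝ (Lip0 E) where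
  norm_smul_le c f := norm_le (by positivity) fun x y => by
    have e : (c • f) x - (c • f) y = c * (f x - f y) := by
      simp only [smul_apply]; ring
    rw [e, abs_mul, mul_assoc]
    exact mul_le_mul_of_nonneg_left (abs_sub_le_norm f x y) (abs_nonneg c)

end Lip0

/-- A real Banach space `X` is a Grothendieck space if every weak* null sequence of `X*` is
weakly null. -/
def IsGrothendieck (X : Type*) [NormedAddCommGroup X] [NormedSpace ℝ X] : Prop :=
  ∀ x : ℕ → (X →L[ℝ] ℝ), (∀ v : X, Tendsto (fun n => x n v) atTop (𝓝 0)) →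
    ∀ Φ : (X →L[ℝ] ℝ) →L[ℝ] ℝ, Tendsto (fun n => Φ (x n)) atTop (𝓝 0)

/-- `Y` is isomorphic to a complemented subspace of `X`: the identity of `Y` factors through `X`
by bounded linear operators. -/
def IsComplementedIn (Y X : Type*) [NormedAddCommGroup Y] [NormedSpace ℝ Y]
    [NormedAddCommGroup X] [NormedSpace ℝ X] : Prop :=
  ∃ (S : Y →L[ℝ] X) (T : X →L[ℝ] Y), ∀ y, T (S y) = y

/-- `E` contains the spaces `ℓ₁ⁿ` uniformly. -/
def ContainsL1nUniformly (E : Type*) [NormedAddCommGroup E] [NormedSpace ℝ E] : Prop :=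
  ∃ C : ℝ, ∀ n : ℕ, ∃ e : Fin n → E, (∀ i, ‖e i‖ ≤ 1) ∧
    ∀ a : Fin n → ℝ, ∑ i, |a i| ≤ C * ‖∑ i, a i • e i‖

end Pool.Agent.LipL1
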