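import Pool.Agent.Lib.MP_327cb1_an_h68.Lip0

/-!
# A criterion for a quotient map onto `ℓ₁`
-/

open Filter Topology

namespace Pool.Agent.LipL1

/-- Limits along the hyperfilter of eventually bounded real sequences. -/
theorem exists_lim_hyperfilter (u : ℕ → ℝ) {B : ℝ} {k₀ : ℕ} (hu : ∀ k, k₀ ≤ k → |u k| ≤ B) :
    ∃ a, Tendsto u (hyperfilter ℕ : Filter ℕ) (𝓝 a) := by
  have h1 : ∀ᶠ k in (hyperfilter ℕ : Filter ℕ), u k ∈ Set.Icc (-B) B := by
    have h2 : ∀ᶠ k in (atTop : Filter ℕ), u k ∈ Set.Icc (-B) B := by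
      filter_upwards [eventually_ge_atTop k₀] with k hk
      exact abs_le.1 (hu k hk)
    exact Nat.hyperfilter_le_atTop h2
  obtain ⟨a, _, ha⟩ := (isCompact_Icc (a := -B) (b := B)).ultrafilter_le_nhds
    ((hyperfilter ℕ).map u) (by
      rw [le_principal_iff]
      exact h1)
  exact ⟨a, ha⟩

/-- The ultralimit. -/
noncomputable def ul (u : ℕ → ℝ) : ℝ := limUnder (hyperfilter ℕ : Filter ℕ) u

theorem tendsto_ul {u : ℕ → ℝ} {B : ℝ} {k₀ : ℕ} (hu : ∀ k, k₀ ≤ k → |u k| ≤ B) :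
    Tendsto u (hyperfilter ℕ : Filter ℕ) (𝓝 (ul u)) :=
  tendsto_nhds_limUnder (exists_lim_hyperfilter u hu)

theorem ul_eq {u : ℕ → ℝ} {a : ℝ} (h : Tendsto u (hyperfilter ℕ : Filter ℕ) (𝓝 a)) :
    ul u = a := h.limUnder_eq

theorem ul_eq_of_eventually {u : ℕ → ℝ} {a : ℝ} {k₀ : ℕ} (h : ∀ k, k₀ ≤ k → u k = a) :
    ul u = a := by
  apply ul_eq
  apply Tendsto.mono_left _ Nat.hyperfilter_le_atTop
  apply tendsto_const_nhds.congr'
  filter_upwards [eventually_ge_atTop k₀] with k hk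
  exact (h k hk).symm

variable {X : Type*} [NormedAddCommGroup X] [NormedSpace ℝ X]

section

variable (A : ℕ → ℕ → X →ₗ[ℝ] ℝ) {M : ℝ}
  (hA : ∀ k F, ∑ j ∈ Finset.range k, |A k j F| ≤ M * ‖F‖)

include hA

theorem A_bound (j : ℕ) (F : X) (k : ℕ) (hk : j + 1 ≤ k) : |A k j F| ≤ M * ‖F‖ :=
  (Finset.single_le_sum (f := fun j => |A k j F|) (fun _ _ => abs_nonneg _)
    (Finset.mem_range.2 hk)).trans (hA k F)

theorem tendsto_A (j : ℕ) (F : X) :
    Tendsto (fun k => A k j F) (hyperfilter ℕ : Filter ℕ) (𝓝 (ul fun k => A k j F)) :=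
  tendsto_ul (A_bound A hA j F)

theorem sum_ul_le (s : Finset ℕ) (F : X) : ∑ j ∈ s, |ul fun k => A k j F| ≤ M * ‖F‖ := by
  have h1 : Tendsto (fun k => ∑ j ∈ s, |A k j F|) (hyperfilter ℕ : Filter ℕ)
      (𝓝 (∑ j ∈ s, |ul fun k => A k j F|)) :=
    tendsto_finsetSum _ fun j _ => (tendsto_A A hA j F).abs
  refine le_of_tendsto h1 ?_
  apply Nat.hyperfilter_le_atTop
  obtain ⟨k₀, hk₀⟩ := s.bddAbove
  filter_upwards [eventually_ge_atTop (k₀ + 1)] with k hk
  refine (Finset.sum_le_sum_of_subset_of_nonneg (t := Finset.range k) ?_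
    (fun _ _ _ => abs_nonneg _)).trans (hA k F)
  intro j hj
  rw [Finset.mem_range]
  exact lt_of_le_of_lt (hk₀ hj) hk

/-- The limit sequence as an element of `ℓ₁`. -/
noncomputable def limSeq (F : X) : lp (fun _ : ℕ => ℝ) 1 :=
  ⟨fun j => ul fun k => A k j F, by
    apply memℓp_gen
    simp only [ENNReal.toReal_one, Real.rpow_one, Real.norm_eq_abs]
    exact summable_of_sum_le (fun _ => abs_nonneg _) (fun s => sum_ul_le A hA s F)⟩

theorem limSeq_apply (F : X) (j : ℕ) : limSeq A hA F j = ul fun k => A k j F := rfl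

omit hA in
theorem norm_l1 (b : lp (fun _ : ℕ => ℝ) 1) : ‖b‖ = ∑' j, |b j| := by
  rw [lp.norm_eq_tsum_rpow (by norm_num) b]
  simp

omit hA in
theorem summable_l1 (b : lp (fun _ : ℕ => ℝ) 1) : Summable fun j => |b j| := by
  have h := (memℓp_gen_iff (p := 1) (by norm_num)).1 b.2
  simpa using h

theorem norm_limSeq_le (F : X) : ‖limSeq A hA F‖ ≤ M * ‖F‖ := by
  rw [norm_l1]
  exact Real.tsum_le_of_sum_le (fun _ => abs_nonneg _) fun s => sum_ul_le A hA s F

/-- The operator `X → ℓ₁`. -/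
noncomputable def TT : X →L[ℝ] lp (fun _ : ℕ => ℝ) 1 :=
  LinearMap.mkContinuous
    { toFun := limSeq A hA
      map_add' := fun F G => by
        ext j
        rw [lp.coeFn_add, Pi.add_apply, limSeq_apply, limSeq_apply, limSeq_apply]
        apply ul_eq
        have h := (tendsto_A A hA j F).add (tendsto_A A hA j G)
        refine h.congr fun k => ?_
        rw [map_add]
      map_smul' := fun c F => by
        ext j
        rw [lp.coeFn_smul, Pi.smul_apply, limSeq_apply, limSeq_apply]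
        apply ul_eq
        have h := (tendsto_A A hA j F).const_mul c
        refine h.congr fun k => ?_
        rw [map_smul, smul_eq_mul] }
    M (norm_limSeq_le A hA)

theorem TT_apply (F : X) (j : ℕ) : TT A hA F j = ul fun k => A k j F := rfl

theorem TT_surj {K : ℝ}
    (hlift : ∀ b : lp (fun _ : ℕ => ℝ) 1, ∃ F : X, ‖F‖ ≤ K * ‖b‖ ∧ ∀ k, ∀ j < k, A k j F = b j)
    (b : lp (fun _ : ℕ => ℝ) 1) : ∃ F : X, ‖F‖ ≤ K * ‖b‖ ∧ TT A hA F = b := by
  obtain ⟨F, hF1, hF2⟩ := hlift b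
  refine ⟨F, hF1, ?_⟩
  ext j
  rw [TT_apply]
  exact ul_eq_of_eventually (k₀ := j + 1) fun k hk => hF2 k j hk

end

/-- A space with `ℓ₁` as a quotient (with bounded lifts) is not a Grothendieck space. -/
theorem not_isGrothendieck_of_lift (T : X →L[ℝ] lp (fun _ : ℕ => ℝ) 1) {K : ℝ}
    (hT : ∀ b : lp (fun _ : ℕ => ℝ) 1, ∃ F : X, ‖F‖ ≤ K * ‖b‖ ∧ T F = b) :
    ¬ IsGrothendieck X := by
  intro hG
  -- the tail functionals
  have hs : ∀ F : X, Summable fun j => T F j := fun F => (summable_l1 (T F)).of_abs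
  have hs' : ∀ (F : X) (n : ℕ), Summable fun j => T F (j + n) := fun F n =>
    (summable_nat_add_iff n).2 (hs F)
  let x : ℕ → (X →L[ℝ] ℝ) := fun n =>
    LinearMap.mkContinuous
      { toFun := fun F => ∑' j, T F (j + n)
        map_add' := fun F G => by
          rw [← (hs' F n).tsum_add (hs' G n)]
          congr 1
          ext j
          rw [map_add, lp.coeFn_add, Pi.add_apply]
        map_smul' := fun c F => by
          rw [RingHom.id_apply, smul_eq_mul, ← tsum_mul_left]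
          congr 1
          ext j
          rw [map_smul, lp.coeFn_smul, Pi.smul_apply, smul_eq_mul] }
      ‖T‖ (fun F => by
        have hab : Summable fun j => |T F (j + n)| :=
          (summable_nat_add_iff (f := fun j => |T F j|) n).2 (summable_l1 (T F))
        calc ‖∑' j, T F (j + n)‖ ≤ ∑' j, |T F (j + n)| := by
              have h := norm_tsum_le_tsum_norm (f := fun j => T F (j + n)) (by simpa using hab)
              simpa using h
          _ ≤ ∑' j, |T F j| := by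
              rw [← (summable_l1 (T F)).sum_add_tsum_nat_add n]
              have : 0 ≤ ∑ i ∈ Finset.range n, |T F i| :=
                Finset.sum_nonneg fun _ _ => abs_nonneg _
              linarith
          _ = ‖T F‖ := (norm_l1 _).symm
          _ ≤ ‖T‖ * ‖F‖ := T.le_opNorm F)
  have hx : ∀ n F, x n F = ∑' j, T F (j + n) := fun n F => rfl
  have hx0 : ∀ F : X, Tendsto (fun n => x n F) atTop (𝓝 0) := fun F => by
    simp only [hx]
    exact tendsto_sum_nat_add fun j => T F j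
  -- the lifts of the unit vectors
  have hlift : ∀ N : ℕ, ∃ F : X, ‖F‖ ≤ K ∧ T F = lp.single 1 N (1 : ℝ) := by
    intro N
    obtain ⟨F, hF1, hF2⟩ := hT (lp.single 1 N (1 : ℝ))
    refine ⟨F, ?_, hF2⟩
    rw [lp.norm_single (by norm_num)] at hF1
    simpa using hF1
  choose F hF1 hF2 using hlift
  have hbd : ∀ (y : X →L[ℝ] ℝ) (N : ℕ), |y (F N)| ≤ ‖y‖ * K := fun y N =>
    (y.le_opNorm (F N)).trans (mul_le_mul_of_nonneg_left (hF1 N) (norm_nonneg y))
  have hul : ∀ y : X →L[ℝ] ℝ, Tendsto (fun N => y (F N)) (hyperfilter ℕ : Filter ℕ)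
      (𝓝 (ul fun N => y (F N))) := fun y => tendsto_ul (k₀ := 0) (fun N _ => hbd y N)
  let Φ : (X →L[ℝ] ℝ) →L[ℝ] ℝ :=
    LinearMap.mkContinuous
      { toFun := fun y => ul fun N => y (F N)
        map_add' := fun y z => by
          apply ul_eq
          exact (hul y).add (hul z)
        map_smul' := fun c y => by
          apply ul_eq
          exact (hul y).const_mul c }
      K (fun y => by
        have h := (hul y).abs
        rw [mul_comm]
        exact le_of_tendsto h (Eventually.of_forall fun N => hbd y N))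
  have hΦ : ∀ n, Φ (x n) = 1 := by
    intro n
    have e : Φ (x n) = ul fun N => x n (F N) := rfl
    rw [e]
    apply ul_eq_of_eventually (k₀ := n)
    intro N hN
    rw [hx, hF2]
    rw [tsum_eq_single (N - n)]
    · rw [Nat.sub_add_cancel hN, lp.single_apply_self]
    · intro j hj
      rw [lp.single_apply_ne]
      omega
  have h1 := hG x hx0 Φ
  simp only [hΦ] at h1
  exact one_ne_zero (tendsto_nhds_unique h1 tendsto_const_nhds).symm

theorem quotient_l1 (A : ℕ → ℕ → X →ₗ[ℝ] ℝ) {M K : ℝ}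
    (hA : ∀ k F, ∑ j ∈ Finset.range k, |A k j F| ≤ M * ‖F‖)
    (hlift : ∀ b : lp (fun _ : ℕ => ℝ) 1, ∃ F : X, ‖F‖ ≤ K * ‖b‖ ∧
      ∀ k, ∀ j < k, A k j F = b j) :
    ∃ T : X →L[ℝ] lp (fun _ : ℕ => ℝ) 1,
      ∀ b : lp (fun _ : ℕ => ℝ) 1, ∃ F : X, ‖F‖ ≤ K * ‖b‖ ∧ T F = b :=
  ⟨TT A hA, TT_surj A hA hlift⟩

end Pool.Agent.LipL1
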