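import Pool.Agent.Lib.MP_327cb1_an_h68.Compl

/-!
# MP_327cb1_an: `Lip₀(E)` is not a Grothendieck space when `E` contains the `ℓ₁ⁿ` uniformly

`Lip0 E` is `Lip₀(E)` with the norm `‖f‖ = ⨆ p : E × E, |f p.1 - f p.2| / ‖p.1 - p.2‖`
(`Pool.Agent.LipL1.Lip0.norm_def`).
-/

namespace Pool.Agent.LipL1.TrivialTypeOld

open Pool.Agent.LipL1

/-- If a real normed space `E` contains the spaces `ℓ₁ⁿ` uniformly (that is, has only trivial
type), then `Lip₀(E)` contains a complemented copy of `ℓ₁`, and `Lip₀(E)` is not a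
Grothendieck space. -/
theorem result (E : Type*) [NormedAddCommGroup E] [NormedSpace ℝ E]
    (hE : ContainsL1nUniformly E) :
    IsComplementedIn (lp (fun _ : ℕ => ℝ) 1) (Lip0 E) ∧ ¬ IsGrothendieck (Lip0 E) := by
  obtain ⟨T, K, hT⟩ := main hE
  obtain ⟨S, hS⟩ := exists_rightInverse T hT
  exact ⟨⟨S, T, fun b => by rw [← ContinuousLinearMap.comp_apply, hS]; rfl⟩,
    not_isGrothendieck_of_lift T hT⟩

end Pool.Agent.LipL1.TrivialTypeOld
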